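import Pool.Agent.Lib.V3.MartK95
import Pool.Agent.Lib.FP95.B_HAR
import Pool.Agent.Lib.FP95.B_RES

/-! The inequality of Harris for measurable decreasing events of an infinite product. -/

namespace Pool.Agent.Lib.SL.H95

open MeasureTheory ProbabilityTheory Filter Function Pool.Agent.Lib.FP95 Pool.Agent.Lib.V3
open scoped NNReal ENNReal symmDiff

variable {ι : Type} [DecidableEq ι] (F : Measure ℝ≥0) [IsProbabilityMeasure F]

/-- The average over one coordinate. -/
noncomputable def av (e : ι) (f : (ι → ℝ≥0) → ℝ) (τ : ι → ℝ≥0) : ℝ := ∫ t, f (update τ e t) ∂F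

theorem av_meas (e : ι) {f : (ι → ℝ≥0) → ℝ} (hm : Measurable f) : Measurable (av F e f) :=
  ((hm.comp (RES.resample F e).measurable).stronglyMeasurable.integral_prod_right').measurable

theorem av_bd (e : ι) {f : (ι → ℝ≥0) → ℝ} {C : ℝ} (hC : ∀ τ, |f τ| ≤ C) (τ : ι → ℝ≥0) :
    |av F e f τ| ≤ C := by
  have h := norm_integral_le_of_norm_le_const (μ := F) (f := fun t => f (update τ e t)) (C := C)
    (ae_of_all _ fun t => hC _)
  rwa [probReal_univ, mul_one] at h

theorem av_int (e : ι) {f : (ι → ℝ≥0) → ℝ} (hm : Measurable f) {C : ℝ} (hC : ∀ τ, |f τ| ≤ C) :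
    ∫ τ, f τ ∂(Measure.infinitePi fun _ : ι => F)
      = ∫ τ, av F e f τ ∂(Measure.infinitePi fun _ : ι => F) := by
  have h1 := integral_map (μ := (Measure.infinitePi fun _ : ι => F).prod F)
    (RES.resample F e).measurable.aemeasurable hm.aestronglyMeasurable
  rw [(RES.resample F e).map_eq] at h1
  exact h1.trans (integral_prod _
    (HAR.intg _ (hm.comp (RES.resample F e).measurable) fun z => hC _))

theorem av_mono (e : ι) {f : (ι → ℝ≥0) → ℝ} (m : Measurable f) {C : ℝ} (hC : ∀ τ, |f τ| ≤ C)
    (hm : Monotone f) : Monotone (av F e f) := fun τ τ' h =>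
  integral_mono (HAR.intg _ (m.comp (measurable_update τ)) fun t => hC _)
    (HAR.intg _ (m.comp (measurable_update τ')) fun t => hC _)
    fun t => hm (update_le_update_iff.2 ⟨le_rfl, fun j _ => h j⟩)

/-- Harris inequality when one of the two functions depends on finitely many coordinates. -/
theorem fin (S : Finset ι) {C D : ℝ} : ∀ f g : (ι → ℝ≥0) → ℝ, Measurable f → Measurable g →
    (∀ τ, |f τ| ≤ C) → (∀ τ, |g τ| ≤ D) → Monotone f → Monotone g → DependsOn f (S : Set ι) →
    (∫ τ, f τ ∂(Measure.infinitePi fun _ : ι => F)) * (∫ τ, g τ ∂(Measure.infinitePi fun _ : ι => F))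
      ≤ ∫ τ, f τ * g τ ∂(Measure.infinitePi fun _ : ι => F) := by
  induction S using Finset.induction_on with
  | empty =>
    intro f g _ _ _ _ _ _ hd
    have h : f = fun _ => f 0 := funext fun τ => hd fun i hi => absurd hi (by simp)
    rw [h, integral_const_mul, integral_const, probReal_univ, one_smul]
  | insert e S he ih =>
    intro f g nf ng hC hD mf mg hd
    have nfg : Measurable fun τ => f τ * g τ := nf.mul ng
    have bfg := HAR.bd_mul hC hD
    rw [av_int F e nf hC, av_int F e ng hD, av_int F e nfg bfg]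
    refine (ih _ _ (av_meas F e nf) (av_meas F e ng) (av_bd F e hC) (av_bd F e hD)
      (av_mono F e nf hC mf) (av_mono F e ng hD mg) fun τ τ' h => ?_).trans
      (integral_mono (HAR.intg _ ((av_meas F e nf).mul (av_meas F e ng))
        (HAR.bd_mul (av_bd F e hC) (av_bd F e hD)))
        (HAR.intg _ (av_meas F e nfg) (av_bd F e bfg)) fun τ => ?_)
    · refine integral_congr_ae (ae_of_all _ fun t => hd fun a ha => ?_)
      by_cases hae : a = e
      · rw [hae, update_self, update_self]
      · rw [update_of_ne hae, update_of_ne hae]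
        exact h a ((Finset.mem_insert.1 ha).resolve_left hae)
    · exact HAR.cheb F (mf.comp (update_mono (f := τ))) (mg.comp (update_mono (f := τ)))
        (fun t => hC _) fun t => hD _

theorem ind_bd {α : Type} (A : Set α) (x : α) : |A.indicator (fun _ => (1 : ℝ)) x| ≤ 1 := by
  by_cases h : x ∈ A <;> simp [h]

theorem ind_nonneg {α : Type} (A : Set α) (x : α) : 0 ≤ A.indicator (fun _ => (1 : ℝ)) x := by
  by_cases h : x ∈ A <;> simp [h]

theorem ind_int {α : Type} [MeasurableSpace α] (μ : Measure α) {A : Set α}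
    (hA : MeasurableSet A) : ∫ x, A.indicator (fun _ => (1 : ℝ)) x ∂μ = μ.real A := by
  rw [integral_indicator_const _ hA, smul_eq_mul, mul_one]

/-- Harris inequality for measurable increasing events. -/
theorem upper {A B : Set (ι → ℝ≥0)} (hA : MeasurableSet A) (hB : MeasurableSet B)
    (uA : IsUpperSet A) (uB : IsUpperSet B) :
    (Measure.infinitePi fun _ : ι => F).real A * (Measure.infinitePi fun _ : ι => F).real B
      ≤ (Measure.infinitePi fun _ : ι => F).real (A ∩ B) := by
  classical
  set P := Measure.infinitePi fun _ : ι => F with hP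
  refine le_of_forall_pos_le_add fun ε hε => ?_
  obtain ⟨A', hA', hs⟩ := exists_measure_symmDiff_lt_of_generateFrom_isSetRing (μ := P)
    (isSetRing_measurableCylinders (α := fun _ : ι => ℝ≥0))
    ⟨{Set.univ}, Set.countable_singleton _,
      Set.singleton_subset_iff.2 (univ_mem_measurableCylinders _), by simp⟩
    generateFrom_measurableCylinders.symm hA (ENNReal.ofReal_pos.2 (half_pos hε))
  have mA' : MeasurableSet A' := MeasurableSet.of_mem_measurableCylinders hA'
  obtain ⟨S, T, -, rfl⟩ := (mem_measurableCylinders _).1 hA'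
  set A' : Set (ι → ℝ≥0) := cylinder S T with hA'def
  have mD : MeasurableSet (A' ∆ A) := mA'.symmDiff hA
  have hD : P.real (A' ∆ A) ≤ ε / 2 := by
    rw [measureReal_def]
    exact ENNReal.toReal_le_of_le_ofReal (half_pos hε).le hs.le
  have sp := M95.splice F (S : Set ι)
  have avg : ∀ {E : Set (ι → ℝ≥0)}, MeasurableSet E →
      Measurable (fun x => ∫ y, E.indicator (fun _ => (1 : ℝ)) ((S : Set ι).piecewise x y) ∂P) ∧
      (∀ x, |∫ y, E.indicator (fun _ => (1 : ℝ)) ((S : Set ι).piecewise x y) ∂P| ≤ 1) ∧
      (∀ x, Integrable (fun y => E.indicator (fun _ => (1 : ℝ)) ((S : Set ι).piecewise x y)) P) ∧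
      ∫ x, (∫ y, E.indicator (fun _ => (1 : ℝ)) ((S : Set ι).piecewise x y) ∂P) ∂P = P.real E := by
    intro E hE
    have m : Measurable (E.indicator fun _ => (1 : ℝ)) := measurable_const.indicator hE
    have m2 := m.comp sp.measurable
    refine ⟨(m2.stronglyMeasurable.integral_prod_right').measurable, fun x => ?_, fun x => ?_, ?_⟩
    · have h := norm_integral_le_of_norm_le_const (μ := P) (C := 1)
        (f := fun y => E.indicator (fun _ => (1 : ℝ)) ((S : Set ι).piecewise x y))
        (ae_of_all _ fun y => ind_bd E _)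
      rwa [probReal_univ, mul_one] at h
    · exact HAR.intg _ (m2.comp measurable_prodMk_left) fun y => ind_bd E _
    · have h1 := integral_map (μ := P.prod P) sp.measurable.aemeasurable m.aestronglyMeasurable
      rw [sp.map_eq, ind_int _ hE] at h1
      rw [h1]
      exact (integral_prod _ (HAR.intg _ m2 fun z => ind_bd E _)).symm
  obtain ⟨a1, a2, a3, a4⟩ := avg hA
  obtain ⟨d1, d2, d3, d4⟩ := avg mD
  have mono : ∀ {E : Set (ι → ℝ≥0)}, IsUpperSet E → Monotone (E.indicator fun _ => (1 : ℝ)) := by
    intro E hE x y hxy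
    by_cases h : x ∈ E
    · rw [Set.indicator_of_mem h, Set.indicator_of_mem (hE hxy h)]
    · rw [Set.indicator_of_notMem h]
      exact ind_nonneg E y
  have mB : Measurable (B.indicator fun _ => (1 : ℝ)) := measurable_const.indicator hB
  have key := fin F S _ _ a1 mB a2 (ind_bd B)
    (fun x x' h => integral_mono (a3 x) (a3 x') fun y => mono uA fun i => by
      by_cases hi : i ∈ (S : Set ι)
      · rw [Set.piecewise_eq_of_mem _ _ _ hi, Set.piecewise_eq_of_mem _ _ _ hi]
        exact h i
      · rw [Set.piecewise_eq_of_notMem _ _ _ hi, Set.piecewise_eq_of_notMem _ _ _ hi])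
    (mono uB) (fun x x' h => by
      have : ∀ y, (S : Set ι).piecewise x y = (S : Set ι).piecewise x' y := fun y => by
        funext i
        by_cases hi : i ∈ (S : Set ι)
        · rw [Set.piecewise_eq_of_mem _ _ _ hi, Set.piecewise_eq_of_mem _ _ _ hi]
          exact h i hi
        · rw [Set.piecewise_eq_of_notMem _ _ _ hi, Set.piecewise_eq_of_notMem _ _ _ hi]
      simp only [this])
  rw [a4, ind_int _ hB] at key
  refine key.trans ?_
  have mAB : MeasurableSet (A ∩ B) := hA.inter hB
  have i1 := HAR.intg P (measurable_const.indicator mAB) (ind_bd (A ∩ B))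
  have i2 := HAR.intg P (measurable_const.indicator mD) (ind_bd (A' ∆ A))
  have i3 := HAR.intg P d1 d2
  have pw : ∀ x, (∫ y, A.indicator (fun _ => (1 : ℝ)) ((S : Set ι).piecewise x y) ∂P)
      * B.indicator (fun _ => (1 : ℝ)) x ≤ ((A ∩ B).indicator (fun _ => (1 : ℝ)) x
        + (A' ∆ A).indicator (fun _ => (1 : ℝ)) x)
        + ∫ y, (A' ∆ A).indicator (fun _ => (1 : ℝ)) ((S : Set ι).piecewise x y) ∂P := by
    intro x
    have n1 := ind_nonneg (A ∩ B) x
    have n2 := ind_nonneg (A' ∆ A) x
    have n3 : 0 ≤ ∫ y, (A' ∆ A).indicator (fun _ => (1 : ℝ)) ((S : Set ι).piecewise x y) ∂P :=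
      integral_nonneg fun y => ind_nonneg _ _
    by_cases hb : x ∈ B
    · rw [Set.indicator_of_mem hb, mul_one]
      by_cases ha' : x ∈ A'
      · have h1 := (abs_le.1 (a2 x)).2
        by_cases ha : x ∈ A
        · rw [Set.indicator_of_mem (Set.mem_inter ha hb)]
          linarith
        · rw [Set.indicator_of_mem (s := A' ∆ A) (Set.mem_symmDiff.2 (Or.inl ⟨ha', ha⟩))]
          linarith
      · have h1 := integral_mono (a3 x) (d3 x) fun y => by
          by_cases h : (S : Set ι).piecewise x y ∈ A
          · have h2 : (S : Set ι).piecewise x y ∉ A' := fun h2 => ha' (by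
              rw [hA'def, mem_cylinder] at h2 ⊢
              have : S.restrict x = S.restrict ((S : Set ι).piecewise x y) := by
                funext i
                exact (Set.piecewise_eq_of_mem _ _ _ (Finset.mem_coe.2 i.2)).symm
              rwa [this])
            simp only [Set.indicator_of_mem h,
              Set.indicator_of_mem (s := A' ∆ A) (Set.mem_symmDiff.2 (Or.inr ⟨h, h2⟩)), le_refl]
          · simp only [Set.indicator_of_notMem h]
            exact ind_nonneg _ _
        linarith
    · rw [Set.indicator_of_notMem hb, mul_zero]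
      linarith
  have i12 : Integrable (fun x => (A ∩ B).indicator (fun _ => (1 : ℝ)) x
      + (A' ∆ A).indicator (fun _ => (1 : ℝ)) x) P := i1.add i2
  have m0 : Measurable fun x => (∫ y, A.indicator (fun _ => (1 : ℝ))
      ((S : Set ι).piecewise x y) ∂P) * B.indicator (fun _ => (1 : ℝ)) x := a1.mul mB
  refine (integral_mono (HAR.intg P m0 (HAR.bd_mul a2 (ind_bd B))) (i12.add i3) pw).trans ?_
  simp only [Pi.add_apply]
  rw [integral_add i12 i3, integral_add i1 i2, ind_int _ mAB, ind_int _ mD, d4]
  linarith

/-- Harris inequality for measurable decreasing events. -/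
theorem lower {A B : Set (ι → ℝ≥0)} (hA : MeasurableSet A) (hB : MeasurableSet B)
    (lA : IsLowerSet A) (lB : IsLowerSet B) :
    (Measure.infinitePi fun _ : ι => F).real A * (Measure.infinitePi fun _ : ι => F).real B
      ≤ (Measure.infinitePi fun _ : ι => F).real (A ∩ B) := by
  have h := upper F hA.compl hB.compl lA.compl lB.compl
  rw [← Set.compl_union, probReal_compl_eq_one_sub hA, probReal_compl_eq_one_sub hB,
    probReal_compl_eq_one_sub (hA.union hB)] at h
  have h2 := measureReal_union_add_inter (μ := Measure.infinitePi fun _ : ι => F) (s := A) hB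
  nlinarith

/-- The same for the configuration space of the planar model. -/
theorem lowerP (p : Par) {A B : Set Cfg} (hA : MeasurableSet A) (hB : MeasurableSet B)
    (lA : IsLowerSet A) (lB : IsLowerSet B) : p.pr A * p.pr B ≤ p.pr (A ∩ B) := by
  classical
  haveI := p.prob
  exact lower p.F hA hB lA lB

end Pool.Agent.Lib.SL.H95
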